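import Pool.Agent.Helper5.FRC.GoalsG
import Pool.Agent.Helper9.FRC.NPR

/-!
# Project FRC (MP_79b960_co): packet FRC-EVENP
-/

set_option autoImplicit false

namespace Pool.Agent.Helper16.FRC.EVENP

open Finset Pool.Agent.Helper5.FRC

/-- One step along a circuit, seen with the two colours of the indices. -/
theorem pairing {V : Type} [Fintype V] [DecidableEq V] (n : Equiv.Perm V) (C : Finset V)
    (hn : ∀ x ∈ C, n x ∈ C) (hs : ∀ x ∈ C, n.symm x ∈ C) (e : V → Prop) [DecidablePred e]
    (he : ∀ x ∈ C, e (n x) ↔ ¬ e x) (he' : ∀ x ∈ C, e (n.symm x) ↔ ¬ e x) :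
    Prg C (fun x => if e x then n x else n.symm x) := by
  intro x hx
  by_cases h : e x
  · have h1 : ¬ e (n x) := fun h2 => (he x hx).mp h2 h
    simp only [if_pos h, if_neg h1, Equiv.symm_apply_apply]
    refine ⟨hn x hx, trivial, ?_⟩
    intro h2
    rw [h2] at h1
    exact h1 h
  · have h1 : e (n.symm x) := (he' x hx).mpr h
    simp only [if_neg h, if_pos h1, Equiv.apply_symm_apply]
    refine ⟨hs x hx, trivial, ?_⟩
    intro h2
    rw [h2] at h1
    exact h h1

theorem t : EvenpStmt := by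
  intro V _ _ n C hC heven
  obtain ⟨c, hc⟩ := hC.1
  obtain ⟨hmem, hsurj, hinj⟩ := Pool.Agent.Helper9.FRC.NPR.enum n C hC c hc
  obtain ⟨g, hg⟩ : ∃ g : V → ℕ, ∀ i < C.card, g ((n : V → V)^[i] c) = i := by
    classical
    refine ⟨fun x => if h : ∃ i, i < C.card ∧ (n : V → V)^[i] c = x then Nat.find h else 0, ?_⟩
    intro i hi
    have h : ∃ j, j < C.card ∧ (n : V → V)^[j] c = (n : V → V)^[i] c := ⟨i, hi, rfl⟩
    simp only [dif_pos h]
    have h2 := Nat.find_spec h
    exact hinj _ h2.1 i hi h2.2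
  have hL : 0 < C.card := card_pos.mpr ⟨c, hc⟩
  have heven2 : C.card % 2 = 0 := Nat.even_iff.mp heven
  have hn : ∀ x ∈ C, n x ∈ C := hC.2.1
  have himg : C.image n = C := by
    refine eq_of_subset_of_card_le ?_ ?_
    · intro x hx
      obtain ⟨y, hy, rfl⟩ := mem_image.mp hx
      exact hn y hy
    · rw [card_image_of_injective _ n.injective]
  have hs : ∀ x ∈ C, n.symm x ∈ C := by
    intro x hx
    rw [← himg] at hx
    obtain ⟨y, hy, rfl⟩ := mem_image.mp hx
    rw [Equiv.symm_apply_apply]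
    exact hy
  have hwrap : (n : V → V)^[C.card] c = c := by
    obtain ⟨j, hj, hje⟩ := hsurj _ (hmem C.card)
    rcases Nat.eq_zero_or_pos j with h0 | h0
    · subst h0
      exact hje.symm
    · exfalso
      obtain ⟨k, rfl⟩ : ∃ k, j = k + 1 := ⟨j - 1, by omega⟩
      obtain ⟨l, hl⟩ : ∃ l, C.card = l + 1 := ⟨C.card - 1, by omega⟩
      rw [hl, Function.iterate_succ_apply', Function.iterate_succ_apply'] at hje
      have h1 := n.injective hje
      have h2 := hinj k (by omega) l (by omega) h1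
      omega
  have hflip : ∀ x ∈ C, g (n x) % 2 = 0 ↔ ¬ (g x % 2 = 0) := by
    intro x hx
    obtain ⟨i, hi, rfl⟩ := hsurj x hx
    have hstep : n ((n : V → V)^[i] c) = (n : V → V)^[i + 1] c :=
      (Function.iterate_succ_apply' _ _ _).symm
    rw [hstep, hg i hi]
    rcases Nat.lt_or_ge (i + 1) C.card with h | h
    · rw [hg (i + 1) h]
      omega
    · have h1 : i + 1 = C.card := by omega
      have h2 : g ((n : V → V)^[i + 1] c) = 0 := by
        rw [h1, hwrap]
        exact hg 0 hL
      rw [h2]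
      omega
  have hflip' : ∀ x ∈ C, g (n.symm x) % 2 = 0 ↔ ¬ (g x % 2 = 0) := by
    intro x hx
    have h1 := hflip (n.symm x) (hs x hx)
    rw [Equiv.apply_symm_apply] at h1
    rw [h1, not_not]
  refine ⟨fun x => if g x % 2 = 0 then n x else n.symm x,
    fun x => if ¬ (g x % 2 = 0) then n x else n.symm x, ?_, ?_, ?_⟩
  · exact pairing n C hn hs (fun x => g x % 2 = 0) hflip hflip'
  · refine pairing n C hn hs (fun x => ¬ (g x % 2 = 0)) ?_ ?_
    · intro x hx
      exact not_congr (hflip x hx)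
    · intro x hx
      exact not_congr (hflip' x hx)
  · intro z hz
    by_cases h : g z % 2 = 0
    · have h' : ¬ ¬ (g z % 2 = 0) := not_not.mpr h
      simp only [if_pos h, if_neg h']
      exact ⟨Or.inl trivial, Or.inr (Equiv.apply_symm_apply _ _), Or.inl trivial⟩
    · simp only [if_neg h, if_pos h]
      exact ⟨Or.inr (Equiv.apply_symm_apply _ _), Or.inl trivial, Or.inr trivial⟩

end Pool.Agent.Helper16.FRC.EVENP
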